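import Pool.Agent.Helper43_PFC.AsmB5
import Pool.Agent.PFC.B5.FVTa
import Pool.Agent.Helper24_PFC.OMZ
import Pool.Agent.Helper77_PFC.TRSa
import Pool.Agent.Helper41_PFC.FDB
import Pool.Agent.PFC.B5.CUG_49
import Pool.Agent.Helper53_PFC.CASa
import Pool.Agent.Helper48_PFC.UNS
import Pool.Agent.Helper92_PFC.QFR
import Pool.Agent.Helper94_PFC.ALV
import Pool.Agent.Helper39_PFC.Qmt
import Pool.Agent.Helper75_PFC.Muv
import Pool.Agent.Helper15_PFC.KWAa
import Pool.Agent.Helper24_PFC.KWB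
import Pool.Agent.Helper72_PFC.LFTa
import Pool.Agent.Helper13_PFC.SUV
import Pool.Agent.Helper31_PFC.INJa
import Pool.Agent.Helper17_PFC.LOC
import Pool.Agent.Helper72_PFC.CPSa
import Pool.Agent.Helper63_PFC.LSC
import Pool.Agent.Helper91_PFC.LSF
import Pool.Agent.PFC.B5.LSM_49
import Pool.Agent.Helper77_PFC.HGP
import Pool.Agent.Helper38_PFC.MID
import Pool.Agent.Helper19_PFC.QEXa
import Pool.Agent.Helper92_PFC.QFM
import Pool.Agent.Helper91_PFC.QPSa
import Pool.Agent.Helper83_PFC.QTPa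
import Pool.Agent.Helper59_PFC.LOQa
import Pool.Agent.Helper52_PFC.LAM
import Pool.Agent.Helper62_PFC.SPG
import Pool.Agent.Helper63_PFC.SEXa
import Pool.Agent.Helper63_PFC.TRB
import Pool.Agent.Helper15_PFC.BRK
import Pool.Agent.Helper30_PFC.TPB
import Pool.Agent.PFC.B5c.Itw_helper65
import Pool.Agent.Helper92_PFC.FAM
import Pool.Agent.Helper33_PFC.NDM
import Pool.Agent.Helper44_PFC.FRT
import Pool.Agent.Helper41_PFC.JBK
import Pool.Agent.Helper92_PFC.FRC
import Pool.Agent.Helper31_PFC.FUL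
import Pool.Agent.Helper76_PFC.ZCN
import Pool.Agent.Helper52_PFC.ZMX
import Pool.Agent.PFC.B5.QMW
import Pool.Agent.Helper32_PFC.QGW
import Pool.Agent.Helper60_PFC.LSN
import Pool.Agent.Helper91_PFC.CMR
import Pool.Agent.PFC.B5c.Lcn_helper65
import Pool.Agent.Helper41_PFC.HGX
import Pool.Agent.PFC.B4.Psx_h10
import Pool.Agent.PFC.B4.UpwHgs_helper1
import Pool.Agent.Helper92_PFC.PRJ
import Pool.Agent.PFC.B4.PSR_49
import Pool.Agent.Helper41_PFC.PSM
import Pool.Agent.Helper77_PFC.QSB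
import Pool.Agent.Helper18_PFC.QKE
import Pool.Agent.Helper44_PFC.QDI
import Pool.Agent.Helper41_PFC.QAL
import Pool.Agent.Helper39_PFC.Qun
import Pool.Agent.Helper85_PFC.QIS
import Pool.Agent.PFC.B4.Qte_helper65
import Pool.Agent.Helper13_PFC.QOP
import Pool.Agent.Helper20_PFC.QCP
import Pool.Agent.Helper81_PFC.QTR
import Pool.Agent.PFC.B4.QCE
import Pool.Agent.Helper19_PFC.QCB
import Pool.Agent.Helper48_PFC.QCA
import Pool.Agent.Helper10_PFC.QCX
import Pool.Agent.Helper13_PFC.QLX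
import Pool.Agent.Helper24_PFC.QLU
import Pool.Agent.Helper6_PFC.QLB
import Pool.Agent.Helper81_PFC.QLW
import Pool.Agent.Helper41_PFC.QZS
import Pool.Agent.Helper59_PFC.QLL
import Pool.Agent.Helper32_PFC.QTJ
import Pool.Agent.Helper81_PFC.QTA
import Pool.Agent.Helper69_PFC.QSN
import Pool.Agent.Helper9_PFC.QVP
import Pool.Agent.Helper63_PFC.QLP
import Pool.Agent.Helper81_PFC.QLQ
import Pool.Agent.Helper77_PFC.CMP

/-!
# Squad PFC: the rows of part (0) put together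
-/

open scoped BigOperators TensorProduct

noncomputable section

namespace Pool.Agent.PFC.B5c.H43

open Pool.Agent.PFC

/-- The output of block B5a. -/
theorem loqOut (qfc : B5a.QfcStmt) : LoqOut :=
  B5a.H59.loq H49d.bki H19.qexa qfc H92.qfm H91.qpsa B5a.H83.qtpa B5a.qmt B5a.H72.cps
    (B5a.H17.loc B5a.H46.fvt B5a.H24.omz B5a.H77.trs H49d.bki B5a.H41.fdb H49d.cug B5a.H53.cas
      B5a.H48.uns H92.qfr B5a.H94.alv B5a.H75.muv H49d.nil B5a.H15.kwaa B5a.H24.kwb B5a.spv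
      B5a.H72.lft H13.suv B5a.H31.inj)

theorem sex : SexStmt :=
  B5a.H63.sexa B5a.H46.fvt H49d.bki B5a.H41.fdb H49d.cug B5a.H53.cas B5a.H48.uns H52.lam
    B5a.H62.spg

theorem midT : MidStmt :=
  H38.mid H49c.smd (H77.hgp (H92.prj H10.psx Hhelper1.UPW) H41.psm H41.hgx) sex

theorem rows (qfc : B5a.QfcStmt) (qtm : QtmStmt) (qmx : QmxStmt) (qlr : QlrStmt) (qsp : QspStmt) :
    Rows :=
  have qke : QkeStmt := H18.qke
  have qis : QisStmt := H85Q.qis
  have qal : QalStmt := H41.qal H77.qsb qke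
  have qte : QteStmt := H65.qte qtm qke
  have qcp : QcpStmt := H20.qcp
  have qtr : QtrStmt := H81.qtr qal qke qcp qis
  have qlb : QlbStmt := H6.qlb qke H77.cmp
  have qlu : QluStmt := H24.qlu
  have qcx : QcxStmt := H10.qcx qke
  { fam := H92.fam (loqOut qfc) H63.trb H65.itw H49b.psr
    cpx := H60.cpx
    cmr := H91.cmr qtr qal qte H13.qop (H39.qun qke) H48.qca qis qmx
    qgw := H32.qgw H46.qmw (H81.qlq qte H13.qop qmx qcp qis) (H63.qlp qis) qis H69.qsn qlr H44.qdi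
    tpb := H30.tpb H49d.bki H63.trb
    qcp := qcp
    qte := qte
    qis := qis
    qcx := qcx
    qlx := H13.qlx
    qlb := qlb
    qke := qke
    qce := H46.qce
    qzs := H41.qzs qlb (H81.qlw qke) qlu H19.qcb
    ndm := H33.ndm
    frt := H44.frt
    jbk := H41.jbk H15.brk
    frc := H92.frc
    qll := H59.qll
    qsp := qsp
    qvp := H9Q.qvp
    qsn := H69.qsn
    qtj := H32.qtj qcx qlu }

theorem pmdT (qfc : B5a.QfcStmt) (qtm : QtmStmt) (qmx : QmxStmt) (qlr : QlrStmt)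
    (qsp : QspStmt) : PmdStmt :=
  pmd (rows qfc qtm qmx qlr qsp) (H49c.lsm H91.lsf) H63.lsc

theorem pmzT (qfc : B5a.QfcStmt) (qtm : QtmStmt) (qmx : QmxStmt) (qlr : QlrStmt)
    (qsp : QspStmt) : PmzStmt :=
  pmz (rows qfc qtm qmx qlr qsp) (H49c.lsm H91.lsf) H63.lsc H91.lsf (H60.lsn H63.lsc)
    (H31.ful H15.brk) H76.zcn H52.zmx H65.lcn

theorem puiT (qfc : B5a.QfcStmt) (qtm : QtmStmt) (qmx : QmxStmt) (qlr : QlrStmt)
    (qsp : QspStmt) : PuiStmt :=
  pui (pmdT qfc qtm qmx qlr qsp) midT H81.qta H65.lcn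

end Pool.Agent.PFC.B5c.H43
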