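import Pool.Agent.PFC.StmtsB5d

/-!
# Squad PFC: assembly of part (0): `PIn → PMid` (`PmdStmt`, `PmzStmt`) and `PuiStmt`
-/

open scoped BigOperators TensorProduct

noncomputable section

namespace Pool.Agent.PFC.B5c.H43

/-- The hypotheses of the core. -/
structure Rows : Prop where
  fam : FamStmt
  cpx : CpxStmt
  cmr : CmrStmt
  qgw : QgwStmt
  tpb : TpbStmt
  qcp : QcpStmt
  qte : QteStmt
  qis : QisStmt
  qcx : QcxStmt
  qlx : QlxStmt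
  qlb : QlbStmt
  qke : QkeStmt
  qce : QceStmt
  qzs : QzsStmt
  ndm : NdmStmt
  frt : FrtStmt
  jbk : JbkStmt
  frc : FrcStmt
  qll : QllStmt
  qsp : QspStmt
  qvp : QvpStmt
  qsn : QsnStmt
  qtj : QtjStmt

/-- The result of the core: everything about `N`, `Y = N ⊗ A`, `j` and the corner. -/
theorem core (H : Rows) (F V E A : Type) [Field F] [IsAlgClosed F] [CommGroup V] [Fintype V]
    [Group E] [Fintype E] [Ring A] [Algebra F A] [FiniteDimensional F A] (ℓ : ℕ) [CharP F ℓ]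
    (φ : E →* MulAut V) (W : Subgroup V) (α : V →* A) (hC : Ctf ℓ φ W) (hI : PIn F φ W α) :
    ∃ (N Y' : IA F V) (j : (N.tens (bd F α)).A) (κ : Y'.A →ₗ[F] (N.tens (bd F α)).A) (n : ℕ),
      0 < n ∧ Nonempty (N.A ≃ₐ[F] Matrix (Fin n) (Fin n) F) ∧
      Cor (N.tens (bd F α)) Y' j κ ∧ j ∈ Fx (cj F (N.tens (bd F α)).ι) ⊤ ∧ j * j = j ∧
      1 - j ∈ BK (cj F (N.tens (bd F α)).ι) ⊤ ∧
      (∃ lam, Frm F (N.tens (bd F α)).ι lam) ∧
      PS (fun K => ∃ (e : E) (R : Subgroup V), K = tw (φ e).toMonoidHom R)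
        (bi F (N.tens (bd F α)).ι) ∧
      BQ (N.tens (bd F α)) (IA.gr F V) ⊤ ∧
      (∀ e : E, ∃ y y' : (N.tens (bd F α)).A, y * y' = 1 ∧ y' * y = 1 ∧
        ∀ u, y * (N.tens (bd F α)).ι u = (N.tens (bd F α)).ι (φ e u) * y) ∧
      PMid F φ W Y'.ι := by
  classical
  have : Fact ℓ.Prime := ⟨hC.pr⟩
  have htop : ¬ (⊤ : Subgroup V) ≤ W := by
    obtain ⟨u, hu⟩ := hC.nt
    exact fun h => hu (h (Subgroup.mem_top u))
  have hWs : ∀ e : E, W.map (φ e).toMonoidHom = W := by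
    intro e
    apply le_antisymm
    · rintro _ ⟨u, hu, rfl⟩
      exact hC.stab e u hu
    · intro u hu
      refine ⟨φ e⁻¹ u, hC.stab e⁻¹ u hu, ?_⟩
      show φ e (φ e⁻¹ u) = u
      rw [← MulAut.mul_apply, ← map_mul, mul_inv_cancel, map_one, MulAut.one_apply]
  set X : IA F V := bd F α with hX
  have hCP : CP X := H.cpx F V A α _ hI.ps
  have hbt : BQ X (IA.gr F V) ⊤ := H.tpb ℓ F V X hC.pg hCP hI.top
  obtain ⟨S, hS⟩ := H.fam F V E A ℓ φ W α hC hI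
  obtain ⟨hcm, hst⟩ := H.cmr ℓ F V E X φ W S hC.pg htop hCP hbt hS
  obtain ⟨N, hNm, hNc, hNr, hNt, hNR⟩ := H.qgw ℓ F V W (Set.range φ) S hC.pg htop
    (by rintro _ ⟨e, rfl⟩; exact hWs e) (fun Q hQ => ⟨hS.mx Q hQ, hS.cp Q hQ⟩) hcm hst
    (by rintro _ ⟨e, rfl⟩ Q hQ; exact hS.tw Q hQ e)
  obtain ⟨iRefl, iSymm, iTrans, iBQ, -, -, -, iTen, -, iComm, iAssoc, iOne, -⟩ := H.qis F V
  set Y : IA F V := N.tens X with hY
  have hCY : CP Y := (H.qcp F V).1 N X hNc hCP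
  -- Y(V) = F V
  have hYt : BQ Y (IA.gr F V) ⊤ := by
    obtain ⟨β, s, h1⟩ := hNt
    obtain ⟨β', s', h2⟩ := hbt
    exact iBQ Y Y _ _ ⊤ (iRefl Y) (iOne (IA.gr F V)) ⟨_, _, H.qte ℓ F V _ _ _ _ ⊤ β s β' s' hC.pg h1 h2⟩
  obtain ⟨b, hb⟩ := (H.qcx ℓ F V Y hC.pg hYt).1
  obtain ⟨j, hj⟩ := H.qlx F V Y b hb
  have hjc : ∀ v, Y.ι v * j = j * Y.ι v := by
    intro v
    have h := hj.fx v (Subgroup.mem_top v)
    have h2 : Y.ι v * (j * Y.ι v⁻¹) = j := h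
    calc Y.ι v * j = Y.ι v * (j * Y.ι v⁻¹) * Y.ι v := by
          rw [mul_assoc, mul_assoc, ← map_mul, inv_mul_cancel, map_one, mul_one]
      _ = j * Y.ι v := by rw [h2]
  obtain ⟨Y', κ, hκ⟩ := H.qce F V Y j hj.id hjc
  -- the Brauer quotients of the corner
  have hR : ∀ R : Subgroup V, ¬ R ≤ W → BQ Y' (IA.gr F V) R := by
    intro R hRW
    obtain ⟨N', hN1, hN2, hN3⟩ := hNR R hRW
    apply H.qzs ℓ F V Y Y' (N'.tens (S R)) R b j κ hC.pg hCY hb hj hκ _ hN2 hN3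
    obtain ⟨β, s, h1⟩ := hN1
    obtain ⟨β', s', h2⟩ := hS.bq R hRW
    exact iBQ Y Y _ _ R (iRefl Y) (iSymm _ _ (iAssoc N' (S R) (IA.gr F V)))
      ⟨_, _, H.qte ℓ F V _ _ _ _ R β s β' s' hC.pg h1 h2⟩
  -- j modulo the Brauer kernel
  have hjb : j ∉ BK (cj F Y.ι) ⊤ := by
    obtain ⟨β, s, h1⟩ := hYt
    obtain ⟨c, hc1, -, hc3⟩ := H.qlb ℓ F V Y (IA.gr F V) ⊤ b j β s hC.pg hCY hb hj h1
    intro hbk
    have h0 := ((H.qke ℓ F V _ _ _ _ ⊤ β s hC.pg h1.toBrS).2.1 j hj.fx).2 hbk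
    have h1 := hc3.bj
    rw [h0, map_zero] at h1
    exact zero_ne_one h1
  have hj1 : 1 - j ∈ BK (cj F Y.ι) ⊤ := H.jbk ℓ F V Y j hC.pg hYt hj.fx hj.id hjb
  obtain ⟨n, hn0, hnF, hNe⟩ := H.ndm ℓ F V N hC.pg hNm hNc hNt
  obtain ⟨lam, hlam⟩ := hI.frm
  obtain ⟨lam1, hlam1⟩ := H.frt ℓ F V N X n hC.pg hnF hNe lam hlam
  have hps : PS (fun K => ∃ (e : E) (R : Subgroup V), K = tw (φ e).toMonoidHom R) (bi F Y.ι) :=
    H.qvp F V E φ N X hNc (fun e => hNr _ ⟨e, rfl⟩) hI.ps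
  have hrz : ∀ e, Rz Y (φ e) := by
    intro e
    apply (H.qsn F V).2.2.2 N X (φ e) (hNr _ ⟨e, rfl⟩)
    obtain ⟨y, y', h1, h2, h3⟩ := hI.uni e
    exact ⟨⟨y, y', h1, h2⟩, h3⟩
  have hpm : PMid F φ W Y'.ι := by
    refine ⟨Y'.fi, ?_, ?_, ?_, ?_, ?_, ?_⟩
    · exact H.frc ℓ F V Y Y' j κ hC.pg hκ hj1 lam1 hlam1
    · exact (H.qll F V Y Y' b j κ hb hj hκ).2
    · intro h1
      have h2 := (H.qsp ℓ F V Y' ⊤ hC.pg (hR ⊤ htop)).2 (fun u => if u = 1 then 1 else 0) (by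
        have : ∑ u, (if u = 1 then (1 : F) else 0) • Y'.ι u = 1 := by
          rw [Finset.sum_eq_single (1 : V)]
          · simp
          · intro u _ hu
            simp [hu]
          · intro h
            exact absurd (Finset.mem_univ _) h
        rw [this]
        exact h1)
      have h3 := congrFun h2 1
      simp at h3
    · exact (H.qcp F V).2.2.2.2.1 _ Y Y' j κ hκ hps
    · intro R hRW a ha
      exact (H.qsp ℓ F V Y' R hC.pg (hR R hRW)).1 a ha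
    · intro e
      obtain ⟨y, hy⟩ := H.qtj ℓ F V Y Y' b j κ (φ e) hC.pg hYt hb hj hκ (hrz e)
      exact ⟨y, (y⁻¹ : Y'.Aˣ), y.mul_inv, y.inv_mul, hy⟩
  refine ⟨N, Y', j, κ, n, hn0, hNe, hκ, hj.fx, hj.id, hj1, ⟨lam1, hlam1⟩, hps, hYt, ?_, hpm⟩
  intro e
  obtain ⟨y, hy⟩ := hrz e
  exact ⟨y, (y⁻¹ : Y.Aˣ), y.mul_inv, y.inv_mul, hy⟩

theorem pmd (H : Rows) (hlsm : LsmStmt) (hlsc : LscStmt) : PmdStmt := by
  intro F V E A _ _ _ _ _ _ _ _ ℓ _ φ W α hC hI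
  have := hI.fin
  obtain ⟨N, Y', j, κ, n, hn0, hNe, hκ, -, -, -, -, -, -, -, hpm⟩ :=
    core H F V E A ℓ φ W α hC hI
  refine ⟨Y'.A, inferInstance, inferInstance, Y'.ι, hpm, ?_⟩
  have h1 : ls F Y'.A ≤ ls F (N.tens (bd F α)).A :=
    hlsc F _ Y'.A j κ ⟨hκ.inj, hκ.mul, hκ.one, hκ.ran⟩
  have h2 : ls F (N.A ⊗[F] A) ≤ ls F A := hlsm F N.A A n hn0 hNe
  exact h1.trans h2

theorem pmz (H : Rows) (hlsm : LsmStmt) (hlsc : LscStmt) (hlsf : LsfStmt) (hlsn : LsnStmt)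
    (hful : FulStmt) (hzcn : ZcnStmt) (hzmx : ZmxStmt) (hlcn : LcnStmt) : PmzStmt := by
  intro F V E A _ _ _ _ _ _ _ _ ℓ _ φ W α hC hI
  have := hI.fin
  have : Fact ℓ.Prime := ⟨hC.pr⟩
  obtain ⟨N, Y', j, κ, n, hn0, hNe, hκ, hjf, hjj, hj1, ⟨lam, hlam⟩, hps, hYt, hun, hpm⟩ :=
    core H F V E A ℓ φ W α hC hI
  refine ⟨Y'.A, inferInstance, inferInstance, Y'.ι, hpm, ?_⟩
  have hcn : Cnr j κ := ⟨hκ.inj, hκ.mul, hκ.one, hκ.ran⟩
  have hzm := hzmx F N.A A n hn0 hNe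
  have hce : ∀ z : (N.tens (bd F α)).A, (∀ a, z * a = a * z) → IsUnit z ∨ IsNilpotent z := by
    intro z hz
    obtain ⟨c, hc, rfl⟩ := hzm.1 z hz
    have hcz : c ∈ Cz F α ⊤ := by
      rw [Cz, Subalgebra.mem_centralizer_iff]
      intro g _
      exact (hc g).symm
    have hmap : ∀ d : A, (1 : N.A) ⊗ₜ[F] d = (Algebra.TensorProduct.includeRight :
        A →ₐ[F] N.A ⊗[F] A) d := fun d => rfl
    rcases (hlcn F (Cz F α ⊤) hI.loc).1 ⟨c, hcz⟩ with h | h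
    · left
      have h2 : IsUnit c := by
        have := h.map (Cz F α ⊤).val
        exact this
      have := h2.map (Algebra.TensorProduct.includeRight : A →ₐ[F] N.A ⊗[F] A)
      exact this
    · right
      have h2 : IsNilpotent c := by
        obtain ⟨k, hk⟩ := h
        exact ⟨k, by simpa using congrArg Subtype.val hk⟩
      exact h2.map (Algebra.TensorProduct.includeRight : A →ₐ[F] N.A ⊗[F] A)
  have hfull : (1 : (N.tens (bd F α)).A) ∈ Submodule.span F {x | ∃ a b, x = a * j * b} :=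
    hful ℓ F V E (N.tens (bd F α)).A φ W (N.tens (bd F α)).ι lam j hC hlam hps hYt hun hce hjf
      hjj hj1
  constructor
  · apply le_antisymm
    · exact (hlsc F _ Y'.A j κ hcn).trans (hlsm F N.A A n hn0 hNe)
    · exact (hlsn F N.A A n hn0 hNe).trans (hlsf F _ Y'.A j κ hcn hfull)
  · exact (hzcn F _ Y'.A j κ hcn hfull).trans hzm.2

theorem pui (hpmd : PmdStmt) (hmid : MidStmt) (hqta : QtaStmt) (hlcn : LcnStmt) : PuiStmt := by
  intro F V E A _ _ _ _ _ _ _ _ ℓ _ φ e0 α _ hc hI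
  have : Fact ℓ.Prime := ⟨hc.pr⟩
  obtain ⟨A', iR, iA, α', hm, hls⟩ := hpmd F V E A ℓ φ ⊥ α hc.ctf hI
  have := hm.fin
  have hy : ∃ y : A', (∀ u, y * α' u = α' (φ e0 u) * y) ∧ y ^ Nat.card E = 1 := by
    have hloc := hm.loc
    have hnt : Nontrivial A' := by
      obtain ⟨x, y, hxy⟩ := (hloc.toNontrivial : Nontrivial (Cz F α' ⊤))
      exact ⟨⟨x, y, fun h => hxy (Subtype.ext h)⟩⟩
    have hord : (φ e0) ^ Nat.card E = 1 := by
      rw [← map_pow, pow_card_eq_one', map_one]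
    obtain ⟨y, y', h1, h2, h3⟩ := hm.uni e0
    have hrz : Rz (bd F α') (φ e0) := ⟨⟨y, y', h1, h2⟩, h3⟩
    have hfx : ∀ a : A', a ∈ Fx (cj F α') ⊤ → ∃ t : F, IsNilpotent (a - algebraMap F A' t) := by
      intro a ha
      have hcz : a ∈ Cz F α' ⊤ := by
        rw [Cz, Subalgebra.mem_centralizer_iff]
        rintro _ ⟨v, -, rfl⟩
        have h : α' v * (a * α' v⁻¹) = a := ha v (Subgroup.mem_top v)
        calc α' v * a = α' v * (a * α' v⁻¹) * α' v := by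
              rw [mul_assoc, mul_assoc, ← map_mul, inv_mul_cancel, map_one, mul_one]
          _ = a * α' v := by rw [h]
      obtain ⟨t, k, hk⟩ := (hlcn F (Cz F α' ⊤) hloc).2 ⟨a, hcz⟩
      exact ⟨t, k, by simpa using congrArg Subtype.val hk⟩
    have hq : ∃ w : A'ˣ, (∀ v, (w : A') * α' v = α' (φ e0 v) * w) ∧ w ^ Nat.card E = 1 :=
      hqta ℓ F V (bd F α') (φ e0) (Nat.card E) Nat.card_pos hc.cop hord hnt hfx hrz
    obtain ⟨w, hw1, hw2⟩ := hq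
    refine ⟨w, hw1, ?_⟩
    have := congrArg (fun z : A'ˣ => (z : A')) hw2
    simpa using this
  obtain ⟨γ, hγ⟩ := hmid F V E A' ℓ φ e0 α' hc ⟨hm.fin, hm.frm, hm.loc, hm.one, hm.ps,
    fun R hR a ha => hm.spn R (fun h => hR (le_bot_iff.1 h)) a ha, hy⟩
  exact ⟨A', iR, iA, γ, hγ, hls⟩

end Pool.Agent.PFC.B5c.H43
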