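import Pool.Agent.PFC.StmtsB5b

/-!
# Squad PFC, row MID
-/

noncomputable section

namespace Pool.Agent.PFC.H43

theorem mid (hsmd : SmdStmt) (hhgp : HgpStmt) (hsex : SexStmt) : MidStmt := by
  intro F V E A _ _ _ _ _ _ _ _ ℓ _ φ e0 α _ hc hm
  obtain ⟨y, hy, hyo⟩ := hm.uni
  obtain ⟨γ, hγ, -⟩ := hsmd V E A φ e0 α y hc.gen hy hyo
  have hcomp : γ.comp (SemidirectProduct.inl : V →* V ⋊[φ] E) = α := by
    ext u
    exact hγ u
  obtain ⟨mu, hmu⟩ := hm.frm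
  have := hm.fin
  refine ⟨γ, ?_⟩
  have hh : HigA F γ := by
    apply hhgp F V E A ℓ φ e0 γ hc
    · rw [hcomp]
      exact hm.ps
    · rw [hcomp]
      exact hm.spn
  apply hsex F V E A ℓ φ e0 γ mu hc
  · rw [hcomp]
    exact hmu
  · rw [hcomp]
    exact hm.loc
  · rw [hcomp]
    exact hm.one
  · exact hh

end Pool.Agent.PFC.H43
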